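import Mathlib

/-!
Pure group theory for the steps (3), (4) of the proof.
-/

set_option autoImplicit false

namespace Pool.Agent.H73.FT

theorem pow_comm_one {M : Type*} [Group M] {x y : M} {n : ℕ} (h : Commute x y) (hx : x ^ n = 1)
    (hy : y ^ n = 1) : (x * y) ^ n = 1 := by
  rw [h.mul_pow, hx, hy, one_mul]

theorem conj_pow_one {M : Type*} [Group M] {g x : M} {n : ℕ} (hx : x ^ n = 1) :
    (g * x * g⁻¹) ^ n = 1 := by
  rw [conj_pow, hx, mul_one, mul_inv_cancel]

theorem eq_one_of_two {M : Type*} [Group M] {t : M} {n : ℕ} (hn : Odd n) (ht : t * t = 1)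
    (h : t ^ n = 1) : t = 1 := by
  obtain ⟨k, rfl⟩ := hn
  rw [pow_succ, pow_mul, pow_two, ht, one_pow, one_mul] at h
  exact h

theorem pow_odd_self {M : Type*} [Group M] {t : M} {n : ℕ} (hn : Odd n) (ht : t * t = 1) :
    t ^ n = t := by
  obtain ⟨k, rfl⟩ := hn
  rw [pow_succ, pow_mul, pow_two, ht, one_pow, one_mul]

/-- (3) -/
theorem pure3 {M : Type*} [Group M] {w D D' g : M} {n : ℕ} (hn : Odd n) (hw : w ^ n = 1)
    (hD : D * D = 1) (hD' : D' * D' = 1) (h1 : Commute w (D * w * D))
    (h1' : Commute w (D' * w * D')) (h2 : (w * D * w) * D' = D' * (w * D * w))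
    (hg : g ^ n = 1) (h3 : g = w * D' * w⁻¹ * D) : D' = D := by
  have hDi : D⁻¹ = D := inv_eq_of_mul_eq_one_left hD
  have hDi' : D'⁻¹ = D' := inv_eq_of_mul_eq_one_left hD'
  obtain ⟨W, hW⟩ : ∃ W, W = D * w * D := ⟨_, rfl⟩
  rw [← hW] at h1
  have hWn : W ^ n = 1 := by
    have := conj_pow_one (g := D) hw
    rwa [hDi, ← hW] at this
  have hDW : D * W * D = w := by
    rw [hW]
    calc D * (D * w * D) * D = (D * D) * w * (D * D) := by group
      _ = w := by rw [hD]; group
  have hDwW : D * (w * W) * D = w * W := by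
    calc D * (w * W) * D = (D * w * D) * (D * W * D) := by
          calc D * (w * W) * D = D * w * (1 : M) * W * D := by group
            _ = D * w * (D * D) * W * D := by rw [hD]
            _ = _ := by group
      _ = W * w := by rw [hDW, ← hW]
      _ = w * W := h1.eq.symm
  have cD : Commute (w * W) D := by
    show w * W * D = D * (w * W)
    calc w * W * D = (D * (w * W) * D) * D := by rw [hDwW]
      _ = D * (w * W) * (D * D) := by group
      _ = D * (w * W) := by rw [hD, mul_one]
  have hwDw : w * D * w = (w * W) * D := by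
    rw [hW]
    calc w * D * w = w * D * w * 1 := by group
      _ = w * D * w * (D * D) := by rw [hD]
      _ = _ := by group
  have hX : (w * D * w) ^ n = D := by
    rw [hwDw, cD.mul_pow, pow_comm_one h1 hw hWn, one_mul, pow_odd_self hn hD]
  have c2 : Commute (w * D * w) D' := h2
  have cDD' : Commute D D' := by
    have := c2.pow_left n
    rwa [hX] at this
  have cWD' : Commute (w * W) D' := by
    have h4 : w * W = (w * D * w) * D := by
      rw [hwDw, mul_assoc, hD, mul_one]
    rw [h4]
    exact c2.mul_left cDD'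
  obtain ⟨t, ht⟩ : ∃ t, t = D' * D := ⟨_, rfl⟩
  have htt : t * t = 1 := by
    rw [ht]
    calc D' * D * (D' * D) = D' * (D * D') * D := by group
      _ = D' * (D' * D) * D := by rw [cDD'.eq]
      _ = (D' * D') * (D * D) := by group
      _ = 1 := by rw [hD, hD', one_mul]
  have hti : t⁻¹ = t := inv_eq_of_mul_eq_one_left htt
  have htD : D' = t * D := by rw [ht, mul_assoc, hD, mul_one]
  have ctD : Commute t D := by
    rw [ht]; exact cDD'.symm.mul_left (Commute.refl D)
  have hDt : D' = D * t := by rw [htD, ctD.eq]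
  have e1 : D' * w * D' = t * W * t := by
    rw [hW]
    nth_rewrite 1 [htD]
    rw [hDt]
    group
  have e2 : D' * W * D' = t * w * t := by
    nth_rewrite 1 [htD]
    rw [hDt]
    calc t * D * W * (D * t) = t * (D * W * D) * t := by group
      _ = t * w * t := by rw [hDW]
  rw [e1] at h1'
  have e3 : (t * W * t) * (t * w * t) = w * W := by
    rw [← e1, ← e2]
    calc D' * w * D' * (D' * W * D') = D' * w * (D' * D') * W * D' := by group
      _ = D' * (w * W) * D' := by rw [hD']; group
      _ = (w * W) * D' * D' := by rw [← cWD'.eq]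
      _ = w * W := by rw [mul_assoc, hD', mul_one]
  have e4 : t * w * t = (t * W * t)⁻¹ * (w * W) := by rw [← e3]; group
  have a1 : Commute w (t * w * t) := by
    rw [e4]
    exact h1'.inv_right.mul_right ((Commute.refl w).mul_right h1)
  have conjt : ∀ {x y : M}, Commute x y → Commute (t * x * t) (t * y * t) := by
    intro x y hxy
    show t * x * t * (t * y * t) = t * y * t * (t * x * t)
    calc t * x * t * (t * y * t) = t * x * (t * t) * y * t := by group
      _ = t * (x * y) * t := by rw [htt]; group
      _ = t * (y * x) * t := by rw [hxy.eq]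
      _ = t * y * (t * t) * x * t := by rw [htt]; group
      _ = t * y * t * (t * x * t) := by group
  have tt : ∀ x : M, t * (t * x * t) * t = x := by
    intro x
    calc t * (t * x * t) * t = (t * t) * x * (t * t) := by group
      _ = x := by rw [htt]; group
  -- `t w t` commutes with `W`
  have a2 : Commute (t * w * t) W := by
    have := conjt h1'
    rwa [tt] at this
  -- `t w t` commutes with `t W t`
  have a3 : Commute (t * w * t) (t * W * t) := conjt h1
  -- `W` commutes with `t W t`
  have a4 : Commute W (t * W * t) := by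
    show W * (t * W * t) = (t * W * t) * W
    have hDx : ∀ x, D * (t * x * t) * D = t * (D * x * D) * t := by
      intro x
      calc D * (t * x * t) * D = (D * t) * x * (t * D) := by group
        _ = (t * D) * x * (D * t) := by rw [ctD.eq]
        _ = t * (D * x * D) * t := by group
    have h5 : D * (w * (t * w * t)) * D = D * ((t * w * t) * w) * D := by rw [a1.eq]
    have h6 : ∀ x y, D * (x * y) * D = (D * x * D) * (D * y * D) := by
      intro x y
      calc D * (x * y) * D = D * x * 1 * y * D := by group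
        _ = D * x * (D * D) * y * D := by rw [hD]
        _ = _ := by group
    rw [h6 w (t * w * t), h6 (t * w * t) w, hDx, ← hW] at h5
    exact h5
  -- `g = t r`
  have e5 : g = t * ((t * w * t) * W⁻¹) := by
    rw [h3, htD]
    have hWi : W⁻¹ = D * w⁻¹ * D := by
      rw [hW, mul_inv_rev, mul_inv_rev, hDi]; group
    rw [hWi]
    calc w * (t * D) * w⁻¹ * D = (w * t) * (D * w⁻¹ * D) := by group
      _ = 1 * w * t * (D * w⁻¹ * D) := by group
      _ = (t * t) * w * t * (D * w⁻¹ * D) := by rw [htt]
      _ = _ := by group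
  obtain ⟨r, hr⟩ : ∃ r, r = (t * w * t) * W⁻¹ := ⟨_, rfl⟩
  rw [← hr] at e5
  have e6 : t * r * t = w * (t * W * t)⁻¹ := by
    rw [hr]
    have h7 : (t * W * t)⁻¹ = t * W⁻¹ * t := by
      rw [mul_inv_rev, mul_inv_rev, hti]; group
    rw [h7]
    calc t * ((t * w * t) * W⁻¹) * t = (t * t) * w * (t * W⁻¹ * t) := by group
      _ = w * (t * W⁻¹ * t) := by rw [htt]; group
  have hrn : r ^ n = 1 := by
    rw [hr]
    apply pow_comm_one a2.inv_right
    · have := conj_pow_one (g := t) hw
      rwa [hti] at this
    · rw [inv_pow, hWn, inv_one]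
  have hrn' : (t * r * t) ^ n = 1 := by
    have := conj_pow_one (g := t) hrn
    rwa [hti] at this
  have crr : Commute (t * r * t) r := by
    rw [e6, hr]
    have b1 : Commute w ((t * w * t) * W⁻¹) := a1.mul_right h1.inv_right
    have b2 : Commute (t * W * t) ((t * w * t) * W⁻¹) := a3.symm.mul_right a4.symm.inv_right
    exact b1.mul_left b2.inv_left
  obtain ⟨m, hm⟩ := hn
  have e7 : g * g = (t * r * t) * r := by rw [e5]; group
  have e8 : ((t * r * t) * r) ^ m * (t * r) = 1 := by
    rw [← e7, ← e5]
    rw [hm, pow_succ, pow_mul, pow_two] at hg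
    exact hg
  have e9 : t = (((t * r * t) * r) ^ m)⁻¹ * r⁻¹ := by
    have h8 : ((t * r * t) * r) ^ m * t * r = 1 := by rw [mul_assoc]; exact e8
    have h9 : ((t * r * t) * r) ^ m * t = r⁻¹ := eq_inv_of_mul_eq_one_left h8
    rw [← h9]; group
  have e10 : t ^ n = 1 := by
    rw [e9]
    have c1 : Commute (((t * r * t) * r) ^ m) r := (crr.mul_left (Commute.refl r)).pow_left m
    apply pow_comm_one (c1.inv_left.inv_right)
    · rw [inv_pow, ← pow_mul, mul_comm m n, pow_mul, pow_comm_one crr hrn' hrn, one_pow, inv_one]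
    · rw [inv_pow, hrn, inv_one]
  have e11 : t = 1 := eq_one_of_two ⟨m, hm⟩ htt e10
  rw [htD, e11, one_mul]

/-- from the squares: `a` and `b` commute if `a b a b = a a b b` -/
theorem comm_of_sq2 {M : Type*} [Group M] {a b : M} (h : a * b * (a * b) = a * a * (b * b)) :
    Commute a b := by
  show a * b = b * a
  have h1 : a⁻¹ * (a * b * (a * b)) * b⁻¹ = a⁻¹ * (a * a * (b * b)) * b⁻¹ := by rw [h]
  have h2 : a⁻¹ * (a * b * (a * b)) * b⁻¹ = b * a := by group
  have h3 : a⁻¹ * (a * a * (b * b)) * b⁻¹ = a * b := by group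
  rw [← h3, ← h1, h2]

end Pool.Agent.H73.FT
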