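import Pool.Agent.H73.FT.Pure
import Pool.Agent.H4.NS.Key
import Pool.Agent.H86.UN.Loc

/-!
Steps (0)-(4): the left and right translations by `s = L_x⁻¹ c L_x e`.
-/

set_option autoImplicit false

namespace ALoop

open Equiv Pool.Agent.H73.FT

variable {Q : Type*} {G : Subgroup (Perm Q)} {L : Q → Perm Q} {J : Perm Q} {e : Q}

/-- `c` is an inner mapping of odd order inverted by `D_x`; `c'` is its conjugate -/
structure OC (G : Subgroup (Perm Q)) (L : Q → Perm Q) (J : Perm Q) (e : Q) (x : Q) (c c' : Perm Q)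
    (n : ℕ) : Prop where
  Jx : J x = x
  mem : c ∈ Inn G e
  odd : Odd n
  pow : c ^ n = 1
  inv : D L J x * c * D L J x = c⁻¹
  pr : c' = (L x)⁻¹ * c * L x

namespace OC

variable {x : Q} {c c' : Perm Q} {n : ℕ}

theorem mulself (h : AL G L J e) (o : OC G L J e x c c' n) : OC G L J e x (c * c) (c' * c') n where
  Jx := o.Jx
  mem := (Inn G e).mul_mem o.mem o.mem
  odd := o.odd
  pow := pow_comm_one (Commute.refl c) o.pow o.pow
  inv := by
    have hDD := h.D_sq x
    calc D L J x * (c * c) * D L J x = D L J x * c * 1 * c * D L J x := by group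
      _ = D L J x * c * (D L J x * D L J x) * c * D L J x := by rw [hDD]
      _ = (D L J x * c * D L J x) * (D L J x * c * D L J x) := by group
      _ = (c * c)⁻¹ := by rw [o.inv]; group
  pr := by rw [o.pr]; group

theorem cG (o : OC G L J e x c c' n) : c ∈ G := o.mem.1

theorem ce (o : OC G L J e x c c' n) : c e = e := o.mem.2

theorem cJ (h : AL G L J e) (o : OC G L J e x c c' n) : c * J = J * c := h.comJ c o.mem.1 o.mem.2

theorem c'G (h : AL G L J e) (o : OC G L J e x c c' n) : c' ∈ G := by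
  rw [o.pr]; exact G.mul_mem (G.mul_mem (G.inv_mem (h.memL x)) o.mem.1) (h.memL x)

theorem c'D (h : AL G L J e) (o : OC G L J e x c c' n) : c' * D L J x = D L J x * c' := by
  rw [o.pr]; exact (h.key_comm o.Jx o.mem o.odd o.pow o.inv).1

theorem Jc'J (h : AL G L J e) (o : OC G L J e x c c' n) : J * c' * J = c'⁻¹ := by
  rw [o.pr]; exact (h.key_comm o.Jx o.mem o.odd o.pow o.inv).2.1

theorem c'c (h : AL G L J e) (o : OC G L J e x c c' n) : Commute c' c := by
  rw [o.pr]; exact (h.key_comm o.Jx o.mem o.odd o.pow o.inv).2.2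

theorem c'pow (o : OC G L J e x c c' n) : c' ^ n = 1 := by
  have h1 := conj_pow_one (g := (L x)⁻¹) o.pow
  rw [inv_inv] at h1
  rw [o.pr]; exact h1

theorem Jc' (h : AL G L J e) (o : OC G L J e x c c' n) : J * c' = c'⁻¹ * J := by
  rw [← o.Jc'J h, mul_assoc, h.JJ1, mul_one]

theorem Jc'i (h : AL G L J e) (o : OC G L J e x c c' n) : J * c'⁻¹ = c' * J := by
  have h1 := o.Jc' h
  calc J * c'⁻¹ = c' * (c'⁻¹ * J) * c'⁻¹ := by group
    _ = c' * (J * c') * c'⁻¹ := by rw [h1]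
    _ = c' * J := by group

theorem c'x (h : AL G L J e) (o : OC G L J e x c c' n) : c' x = x :=
  (h.D_cent (o.c'G h) x).1 (o.c'D h)

theorem Lc' (o : OC G L J e x c c' n) : L x * c' = c * L x := by rw [o.pr]; group

theorem Lc'i (o : OC G L J e x c c' n) : L x * c'⁻¹ = c⁻¹ * L x := by rw [o.pr]; group

theorem cs (h : AL G L J e) (o : OC G L J e x c c' n) : c (c' e) = c' e := by
  show (c * c') e = c' e
  rw [← (o.c'c h).eq]
  show c' (c e) = c' e
  rw [o.ce]

theorem Js (h : AL G L J e) (o : OC G L J e x c c' n) : J (c' e) = c'⁻¹ e := by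
  show (J * c') e = c'⁻¹ e
  rw [o.Jc' h]
  show c'⁻¹ (J e) = c'⁻¹ e
  rw [h.Je]

theorem Dxe (h : AL G L J e) (o : OC G L J e x c c' n) : D L J x e = e := by
  have h1 : (L x)⁻¹ e = x := by rw [Perm.inv_eq_iff_eq]; exact (h.LxLx o.Jx).symm
  show L x (J ((L x)⁻¹ e)) = e
  rw [h1, o.Jx, h.LxLx o.Jx]

/-- the inner mapping `z_x` -/
theorem zInn (h : AL G L J e) (o : OC G L J e x c c' n) : D L J x * J ∈ Inn G e := by
  refine ⟨?_, ?_⟩
  · have h1 := h.D_mul_mem x e
    rw [h.D_e] at h1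
    exact h1
  · show D L J x (J e) = e
    rw [h.Je, o.Dxe h]

theorem zs (h : AL G L J e) (o : OC G L J e x c c' n) : (D L J x * J) (c' e) = J (c' e) := by
  show D L J x (J (c' e)) = J (c' e)
  rw [o.Js h]
  have h1 : D L J x * c'⁻¹ = c'⁻¹ * D L J x := by
    calc D L J x * c'⁻¹ = c'⁻¹ * (c' * D L J x) * c'⁻¹ := by group
      _ = c'⁻¹ * (D L J x * c') * c'⁻¹ := by rw [o.c'D h]
      _ = c'⁻¹ * D L J x := by group
  show (D L J x * c'⁻¹) e = c'⁻¹ e
  rw [h1]
  show c'⁻¹ (D L J x e) = c'⁻¹ e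
  rw [o.Dxe h]

/-- the correction `k` -/
def kk (L : Q → Perm Q) (e : Q) (c c' : Perm Q) : Perm Q := c * c'⁻¹ * L (c' e)

theorem kInn (h : AL G L J e) (o : OC G L J e x c c' n) : kk L e c c' ∈ Inn G e := by
  refine ⟨G.mul_mem (G.mul_mem o.cG (G.inv_mem (o.c'G h))) (h.memL _), ?_⟩
  show c (c'⁻¹ (L (c' e) e)) = e
  rw [h.Le, inv_apply', o.ce]

theorem kc (h : AL G L J e) (o : OC G L J e x c c' n) : Commute (kk L e c c') c := by
  have h1 : Commute c (L (c' e)) := h.comL o.cG o.ce (o.cs h)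
  exact (((Commute.refl c).mul_left (o.c'c h).inv_left).mul_left h1.symm)

theorem kJ (h : AL G L J e) (o : OC G L J e x c c' n) : Commute (kk L e c c') J :=
  h.comJ _ (o.kInn h).1 (o.kInn h).2

theorem Lsx (h : AL G L J e) (o : OC G L J e x c c' n) : L (c' e) x = c⁻¹ x := by
  have h1 := h.R_apply (c' e) x
  rw [o.Jx] at h1
  rw [← h1]
  show J (L x (J (c' e))) = c⁻¹ x
  rw [o.Js h]
  have h2 : L x (c'⁻¹ e) = c⁻¹ x := by
    show (L x * c'⁻¹) e = c⁻¹ x
    rw [o.Lc'i]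
    show c⁻¹ (L x e) = c⁻¹ x
    rw [h.Le]
  rw [h2]
  have h3 : J * c⁻¹ = c⁻¹ * J := by
    calc J * c⁻¹ = c⁻¹ * (c * J) * c⁻¹ := by group
      _ = c⁻¹ * (J * c) * c⁻¹ := by rw [o.cJ h]
      _ = c⁻¹ * J := by group
  show (J * c⁻¹) x = c⁻¹ x
  rw [h3]
  show c⁻¹ (J x) = c⁻¹ x
  rw [o.Jx]

theorem kx (h : AL G L J e) (o : OC G L J e x c c' n) : kk L e c c' x = x := by
  show c (c'⁻¹ (L (c' e) x)) = x
  rw [o.Lsx h]
  have h1 : c * c'⁻¹ * c⁻¹ = c'⁻¹ := by
    rw [((o.c'c h).inv_left).eq.symm]; group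
  show (c * c'⁻¹ * c⁻¹) x = x
  rw [h1, Perm.inv_eq_iff_eq]
  exact (o.c'x h).symm

theorem kL (h : AL G L J e) (o : OC G L J e x c c' n) : Commute (kk L e c c') (L x) :=
  h.comL (o.kInn h).1 (o.kInn h).2 (o.kx h)

theorem kD (h : AL G L J e) (o : OC G L J e x c c' n) : Commute (kk L e c c') (D L J x) :=
  (h.D_cent (o.kInn h).1 x).2 (o.kx h)

theorem kc' (h : AL G L J e) (o : OC G L J e x c c' n) : Commute (kk L e c c') c' := by
  have h1 := ((o.kL h).inv_right.mul_right (o.kc h)).mul_right (o.kL h)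
  rwa [← o.pr] at h1

theorem Ls0 (o : OC G L J e x c c' n) : L (c' e) = c' * c⁻¹ * kk L e c c' := by
  unfold kk; group

theorem Rs0 (h : AL G L J e) (o : OC G L J e x c c' n) :
    J * L (J (c' e)) * J = c' * c * kk L e c c' := by
  have hJJ := h.JJ1
  have hDD := h.D_sq x
  have hDJ := h.Dx_J o.Jx
  have hz := o.zInn h
  have h1 := h.equi _ hz.1 hz.2 (c' e)
  rw [o.zs h] at h1
  rw [← h1]
  have hDi : (D L J x)⁻¹ = D L J x := inv_eq_of_mul_eq_one_left hDD
  have h2 : J * (D L J x * J * L (c' e) * (D L J x * J)⁻¹) * J = D L J x * L (c' e) * D L J x := by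
    rw [mul_inv_rev, hDi, h.Jinv]
    calc J * (D L J x * J * L (c' e) * (J * D L J x)) * J
        = (J * D L J x) * J * L (c' e) * J * (D L J x * J) := by group
      _ = (D L J x * J) * J * L (c' e) * J * (J * D L J x) := by rw [hDJ]
      _ = D L J x * (J * J) * L (c' e) * (J * J) * D L J x := by group
      _ = D L J x * L (c' e) * D L J x := by rw [hJJ, mul_one, mul_one]
  rw [h2, o.Ls0]
  have h3 : D L J x * c⁻¹ * D L J x = c := by
    have h4 : D L J x * c⁻¹ * D L J x = (D L J x * c * D L J x)⁻¹ := by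
      rw [mul_inv_rev, mul_inv_rev, hDi]; group
    rw [h4, o.inv, inv_inv]
  calc D L J x * (c' * c⁻¹ * kk L e c c') * D L J x
      = (D L J x * c') * c⁻¹ * (kk L e c c' * D L J x) := by group
    _ = (c' * D L J x) * c⁻¹ * (D L J x * kk L e c c') := by rw [o.c'D h, (o.kD h).eq]
    _ = c' * (D L J x * c⁻¹ * D L J x) * kk L e c c' := by group
    _ = c' * c * kk L e c c' := by rw [h3]

/-- (1), first form -/
theorem w1 (h : AL G L J e) (o : OC G L J e x c c' n) (q : Q) :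
    L q * (c * c) * (L q)⁻¹ = (J * L x * J) * ((c' * c)⁻¹ * D L J q * (c' * c) * D L J q) *
      (J * L x * J)⁻¹ := by
  have hJJ := h.JJ1
  have hDD := h.D_sq x
  have hJcx : J (c x) = c x := by
    show (J * c) x = c x
    rw [← o.cJ h]
    show c (J x) = c x
    rw [o.Jx]
  have hcc : c * c = D L J (c x) * D L J x := by
    rw [← h.D_conj o.cG x]
    have h1 : D L J x * c⁻¹ * D L J x = c := by
      have hDi : (D L J x)⁻¹ = D L J x := inv_eq_of_mul_eq_one_left hDD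
      have h4 : D L J x * c⁻¹ * D L J x = (D L J x * c * D L J x)⁻¹ := by
        rw [mul_inv_rev, mul_inv_rev, hDi]; group
      rw [h4, o.inv, inv_inv]
    calc c * c = c * (D L J x * c⁻¹ * D L J x) := by rw [h1]
      _ = _ := by group
  have hRx : J * L x * J ∈ G := h.JG _ (h.memL x)
  have hRcx : J * L (c x) * J ∈ G := h.JG _ (h.memL _)
  have e1 : L q (c x) = (J * L (c x) * J) q := by
    have h1 := h.R_apply q (c x)
    rw [hJcx] at h1
    exact h1.symm
  have e2 : L q x = (J * L x * J) q := by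
    have h1 := h.R_apply q x
    rw [o.Jx] at h1
    exact h1.symm
  have e3 : J * L (c x) * J = (J * L x * J) * (c' * c)⁻¹ := by
    have h1 := h.equi c o.cG o.ce x
    rw [← h1]
    have h2 : c' * J = J * c'⁻¹ := (o.Jc'i h).symm
    have h3 : c * J = J * c := o.cJ h
    have h4 : c⁻¹ * J = J * c⁻¹ := by
      calc c⁻¹ * J = c⁻¹ * (J * c) * c⁻¹ := by group
        _ = c⁻¹ * (c * J) * c⁻¹ := by rw [h3]
        _ = J * c⁻¹ := by group
    calc J * (c * L x * c⁻¹) * J = J * (c * L x) * (c⁻¹ * J) := by group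
      _ = J * (L x * c') * (J * c⁻¹) := by rw [h4, ← o.Lc']
      _ = J * L x * (c' * J) * c⁻¹ := by group
      _ = J * L x * (J * c'⁻¹) * c⁻¹ := by rw [h2]
      _ = (J * L x * J) * (c'⁻¹ * c⁻¹) := by group
      _ = (J * L x * J) * (c' * c)⁻¹ := by rw [(o.c'c h).eq]; group
  calc L q * (c * c) * (L q)⁻¹ = (L q * D L J (c x) * (L q)⁻¹) * (L q * D L J x * (L q)⁻¹) := by
        rw [hcc]; group
    _ = D L J (L q (c x)) * D L J (L q x) := by rw [h.D_conj (h.memL q), h.D_conj (h.memL q)]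
    _ = ((J * L (c x) * J) * D L J q * (J * L (c x) * J)⁻¹) *
        ((J * L x * J) * D L J q * (J * L x * J)⁻¹) := by
        rw [e1, e2, h.D_conj hRcx, h.D_conj hRx]
    _ = _ := by rw [e3]; group

theorem w2 (h : AL G L J e) (o : OC G L J e x c c' n) (q : Q) :
    Commute (c' * c) (D L J q * (c' * c) * D L J q) := by
  have h1 := o.w1 h q
  have h2 := (o.mulself h).w1 h q
  have hDD := h.D_sq q
  obtain ⟨w, hw⟩ : ∃ w, w = c' * c := ⟨_, rfl⟩
  have hww : c' * c' * (c * c) = w * w := by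
    rw [hw]
    calc c' * c' * (c * c) = c' * (c' * c) * c := by group
      _ = c' * (c * c') * c := by rw [(o.c'c h).eq]
      _ = c' * c * (c' * c) := by group
  rw [← hw] at h1 ⊢
  rw [hww] at h2
  obtain ⟨R, hR⟩ : ∃ R, R = J * L x * J := ⟨_, rfl⟩
  rw [← hR] at h1 h2
  have h3 : L q * (c * c * (c * c)) * (L q)⁻¹ =
      (L q * (c * c) * (L q)⁻¹) * (L q * (c * c) * (L q)⁻¹) := by group
  rw [h2, h1] at h3
  have h4 : (w * w)⁻¹ * D L J q * (w * w) * D L J q =
      (w⁻¹ * D L J q * w * D L J q) * (w⁻¹ * D L J q * w * D L J q) := by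
    calc (w * w)⁻¹ * D L J q * (w * w) * D L J q
        = R⁻¹ * (R * ((w * w)⁻¹ * D L J q * (w * w) * D L J q) * R⁻¹) * R := by group
      _ = R⁻¹ * (R * (w⁻¹ * D L J q * w * D L J q) * R⁻¹ *
          (R * (w⁻¹ * D L J q * w * D L J q) * R⁻¹)) * R := by rw [h3]
      _ = _ := by group
  have h5 : Commute w⁻¹ (D L J q * w * D L J q) := by
    apply comm_of_sq2
    calc w⁻¹ * (D L J q * w * D L J q) * (w⁻¹ * (D L J q * w * D L J q))
        = (w⁻¹ * D L J q * w * D L J q) * (w⁻¹ * D L J q * w * D L J q) := by group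
      _ = (w * w)⁻¹ * D L J q * (w * w) * D L J q := h4.symm
      _ = w⁻¹ * w⁻¹ * (D L J q * w * 1 * w * D L J q) := by group
      _ = w⁻¹ * w⁻¹ * (D L J q * w * (D L J q * D L J q) * w * D L J q) := by rw [hDD]
      _ = w⁻¹ * w⁻¹ * (D L J q * w * D L J q * (D L J q * w * D L J q)) := by group
  have h6 := h5.inv_left
  rwa [inv_inv] at h6

/-- (2), first form -/
theorem w3 (h : AL G L J e) (o : OC G L J e x c c' n) (q : Q) :
    L q * (c' * c') * (L q)⁻¹ = (c' * c) * D L J (kk L e c c' q) * (c' * c)⁻¹ * D L J q := by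
  have hJJ := h.JJ1
  have h1 : c' * c' = D L J (c' e) * J := by
    rw [← h.D_conj (o.c'G h) e, h.D_e]
    calc c' * c' = c' * c' * (J * J) := by rw [hJJ, mul_one]
      _ = c' * (c' * J) * J := by group
      _ = c' * (J * c'⁻¹) * J := by rw [o.Jc'i h]
      _ = c' * J * c'⁻¹ * J := by group
  have e1 : L q (c' e) = (J * L (J (c' e)) * J) q := (h.R_apply q (c' e)).symm
  have hRG : J * L (J (c' e)) * J ∈ G := h.memR _
  have e2 : D L J (L q (c' e)) = (c' * c) * D L J (kk L e c c' q) * (c' * c)⁻¹ := by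
    rw [e1, ← h.D_conj hRG, o.Rs0 h, ← h.D_conj (o.kInn h).1]
    group
  calc L q * (c' * c') * (L q)⁻¹ = (L q * D L J (c' e) * (L q)⁻¹) * (L q * J * (L q)⁻¹) := by
        rw [h1]; group
    _ = D L J (L q (c' e)) * D L J q := by rw [h.D_conj (h.memL q)]; rfl
    _ = _ := by rw [e2]

/-- (2), second form -/
theorem w3' (h : AL G L J e) (o : OC G L J e x c c' n) (q : Q) :
    L q * (c' * c')⁻¹ * (L q)⁻¹ = (c' * c)⁻¹ * D L J (kk L e c c' q) * (c' * c) * D L J q := by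
  have hJJ := h.JJ1
  have h1 : (c' * c')⁻¹ = D L J (c'⁻¹ e) * J := by
    rw [← h.D_conj (G.inv_mem (o.c'G h)) e, h.D_e]
    calc (c' * c')⁻¹ = c'⁻¹ * c'⁻¹ * (J * J) := by rw [hJJ]; group
      _ = c'⁻¹ * (c'⁻¹ * J) * J := by group
      _ = c'⁻¹ * (J * c') * J := by rw [o.Jc' h]
      _ = c'⁻¹ * J * c'⁻¹⁻¹ * J := by group
  have e0 : c'⁻¹ e = J (c' e) := (o.Js h).symm
  have e1 : L q (c'⁻¹ e) = (J * L (c' e) * J) q := by
    rw [e0]
    have h2 := h.R_apply q (J (c' e))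
    rw [h.JJ] at h2
    exact h2.symm
  have hRG : J * L (c' e) * J ∈ G := h.JG _ (h.memL _)
  have e3 : J * L (c' e) * J = (c' * c)⁻¹ * kk L e c c' := by
    rw [o.Ls0]
    have h4 : c⁻¹ * J = J * c⁻¹ := by
      calc c⁻¹ * J = c⁻¹ * (J * c) * c⁻¹ := by group
        _ = c⁻¹ * (c * J) * c⁻¹ := by rw [o.cJ h]
        _ = J * c⁻¹ := by group
    calc J * (c' * c⁻¹ * kk L e c c') * J = (J * c') * c⁻¹ * (kk L e c c' * J) := by group
      _ = (c'⁻¹ * J) * c⁻¹ * (J * kk L e c c') := by rw [o.Jc' h, (o.kJ h).eq]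
      _ = c'⁻¹ * J * (c⁻¹ * J) * kk L e c c' := by group
      _ = c'⁻¹ * J * (J * c⁻¹) * kk L e c c' := by rw [h4]
      _ = c'⁻¹ * (J * J) * c⁻¹ * kk L e c c' := by group
      _ = (c * c')⁻¹ * kk L e c c' := by rw [hJJ]; group
      _ = (c' * c)⁻¹ * kk L e c c' := by rw [(o.c'c h).eq]
  have e2 : D L J (L q (c'⁻¹ e)) = (c' * c)⁻¹ * D L J (kk L e c c' q) * (c' * c) := by
    rw [e1, ← h.D_conj hRG, e3, ← h.D_conj (o.kInn h).1]
    group
  calc L q * (c' * c')⁻¹ * (L q)⁻¹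
      = (L q * D L J (c'⁻¹ e) * (L q)⁻¹) * (L q * J * (L q)⁻¹) := by
        rw [h1]; group
    _ = D L J (L q (c'⁻¹ e)) * D L J q := by rw [h.D_conj (h.memL q)]; rfl
    _ = _ := by rw [e2]

theorem kq (h : AL G L J e) (o : OC G L J e x c c' n) (q : Q) : kk L e c c' q = q := by
  apply h.D_inj
  have hw : (c' * c) ^ n = 1 := pow_comm_one (o.c'c h) o.c'pow o.pow
  have hD := h.D_sq q
  have hD' := h.D_sq (kk L e c c' q)
  have hDi : (D L J q)⁻¹ = D L J q := inv_eq_of_mul_eq_one_left hD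
  have hDi' : (D L J (kk L e c c' q))⁻¹ = D L J (kk L e c c' q) := inv_eq_of_mul_eq_one_left hD'
  have h3 := o.w3 h q
  have h3' := o.w3' h q
  have h4 : (L q * (c' * c') * (L q)⁻¹)⁻¹ = L q * (c' * c')⁻¹ * (L q)⁻¹ := by group
  rw [h3, h3'] at h4
  have h5 : D L J q * ((c' * c) * (D L J (kk L e c c' q) * (c' * c)⁻¹)) =
      (c' * c)⁻¹ * D L J (kk L e c c' q) * (c' * c) * D L J q := by
    rw [← h4]
    calc D L J q * ((c' * c) * (D L J (kk L e c c' q) * (c' * c)⁻¹))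
        = (D L J q)⁻¹ * ((c' * c) * ((D L J (kk L e c c' q))⁻¹ * (c' * c)⁻¹)) := by
          rw [hDi, hDi']
      _ = _ := by group
  have h2 : ((c' * c) * D L J q * (c' * c)) * D L J (kk L e c c' q) =
      D L J (kk L e c c' q) * ((c' * c) * D L J q * (c' * c)) := by
    calc ((c' * c) * D L J q * (c' * c)) * D L J (kk L e c c' q)
        = (c' * c) * (D L J q * ((c' * c) * (D L J (kk L e c c' q) * (c' * c)⁻¹))) * (c' * c) := by
          group
      _ = (c' * c) * ((c' * c)⁻¹ * D L J (kk L e c c' q) * (c' * c) * D L J q) * (c' * c) := by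
          rw [h5]
      _ = _ := by group
  refine pure3 (w := c' * c) (g := L q * (c' * c') * (L q)⁻¹) o.odd hw hD hD' (o.w2 h q)
    (o.w2 h _) h2 ?_ h3
  exact conj_pow_one (pow_comm_one (Commute.refl c') o.c'pow o.c'pow)

theorem k1 (h : AL G L J e) (o : OC G L J e x c c' n) : kk L e c c' = 1 := by
  ext q
  exact o.kq h q

/-- (3): the left translation by `s = c' e` -/
theorem Ls (h : AL G L J e) (o : OC G L J e x c c' n) : L (c' e) = c' * c⁻¹ := by
  have h1 := o.Ls0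
  rwa [o.k1 h, mul_one] at h1

/-- (3): the right translation by `s = c' e` -/
theorem Rs (h : AL G L J e) (o : OC G L J e x c c' n) : J * L (J (c' e)) * J = c' * c := by
  have h1 := o.Rs0 h
  rwa [o.k1 h, mul_one] at h1

/-- (4) -/
theorem dq (h : AL G L J e) (o : OC G L J e x c c' n) (q : Q) :
    (L q)⁻¹ * (c' * c) * L q * (c' * c)⁻¹ ∈ Inn G e ∧
    ((L q)⁻¹ * (c' * c) * L q * (c' * c)⁻¹) (c' e) = c' e ∧
    ((L q)⁻¹ * (c' * c) * L q * (c' * c)⁻¹) ^ n = 1 ∧
    Commute ((L q)⁻¹ * (c' * c) * L q * (c' * c)⁻¹) (c' * c) ∧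
    Commute ((L q)⁻¹ * (c' * c) * L q * (c' * c)⁻¹) (c' * c') := by
  have hJJ := h.JJ1
  have key : ∀ {c c' : Perm Q}, OC G L J e x c c' n →
      J * ((L q)⁻¹ * (c' * c) * L q) * J = (c' * c')⁻¹ * ((L q)⁻¹ * (c' * c) * L q) := by
    intro c c' o
    have h3 := o.w3 h q
    rw [o.kq h] at h3
    have h4 : c' * c' = ((L q)⁻¹ * (c' * c) * L q) * (J * ((L q)⁻¹ * (c' * c) * L q)⁻¹ * J) := by
      calc c' * c' = (L q)⁻¹ * (L q * (c' * c') * (L q)⁻¹) * L q := by group
        _ = (L q)⁻¹ * ((c' * c) * D L J q * (c' * c)⁻¹ * D L J q) * L q := by rw [h3]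
        _ = _ := by unfold D; group
    have h5 : J * ((L q)⁻¹ * (c' * c) * L q)⁻¹ * J = ((L q)⁻¹ * (c' * c) * L q)⁻¹ * (c' * c') := by
      rw [eq_inv_mul_iff_mul_eq]
      exact h4.symm
    calc J * ((L q)⁻¹ * (c' * c) * L q) * J = (J * ((L q)⁻¹ * (c' * c) * L q)⁻¹ * J)⁻¹ := by
          rw [mul_inv_rev, mul_inv_rev, h.Jinv, inv_inv]; group
      _ = _ := by rw [h5]; group
  obtain ⟨w, hw⟩ : ∃ w, w = c' * c := ⟨_, rfl⟩
  obtain ⟨v, hv⟩ : ∃ v, v = (L q)⁻¹ * w * L q := ⟨_, rfl⟩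
  have hww : c' * c' * (c * c) = w * w := by
    rw [hw]
    calc c' * c' * (c * c) = c' * (c' * c) * c := by group
      _ = c' * (c * c') * c := by rw [(o.c'c h).eq]
      _ = c' * c * (c' * c) := by group
  have k1 := key o
  have k2 := key (o.mulself h)
  rw [hww] at k2
  rw [← hw] at k1 ⊢
  rw [← hv] at k1 ⊢
  have hvv : (L q)⁻¹ * (w * w) * L q = v * v := by rw [hv]; group
  rw [hvv] at k2
  have hJm : ∀ a b : Perm Q, J * (a * b) * J = (J * a * J) * (J * b * J) := h.Jmul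
  have cv : Commute (c' * c')⁻¹ v := by
    apply comm_of_sq2
    calc (c' * c')⁻¹ * v * ((c' * c')⁻¹ * v) = (J * v * J) * (J * v * J) := by rw [k1]
      _ = J * (v * v) * J := (hJm v v).symm
      _ = (c' * c' * (c' * c'))⁻¹ * (v * v) := k2
      _ = _ := by group
  have cv' : Commute (c' * c') v := by
    have h1 := cv.inv_left
    rwa [inv_inv] at h1
  have cw' : Commute (c' * c') w := by
    rw [hw]
    have h1 : Commute c' (c' * c) := (Commute.refl c').mul_right (o.c'c h)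
    exact h1.mul_left h1
  have hJw : J * w * J = (c' * c')⁻¹ * w := by
    rw [hw, hJm, o.Jc'J h]
    have h1 : J * c * J = c := by
      rw [← o.cJ h, mul_assoc, hJJ, mul_one]
    rw [h1]; group
  have hwn : w ^ n = 1 := by rw [hw]; exact pow_comm_one (o.c'c h) o.c'pow o.pow
  have hvn : v ^ n = 1 := by
    rw [hv]
    have h1 := conj_pow_one (g := (L q)⁻¹) hwn
    rwa [inv_inv] at h1
  have hwG : w ∈ G := by rw [hw]; exact G.mul_mem (o.c'G h) o.cG
  have hvG : v ∈ G := by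
    rw [hv]; exact G.mul_mem (G.mul_mem (G.inv_mem (h.memL q)) hwG) (h.memL q)
  have hdG : v * w⁻¹ ∈ G := G.mul_mem hvG (G.inv_mem hwG)
  have hdJ : (v * w⁻¹) * J = J * (v * w⁻¹) := by
    have h1 : J * (v * w⁻¹) * J = v * w⁻¹ := by
      have h2 : J * w⁻¹ * J = (J * w * J)⁻¹ := by
        rw [mul_inv_rev, mul_inv_rev, h.Jinv]; group
      rw [hJm, k1, h2, hJw]
      calc (c' * c')⁻¹ * v * ((c' * c')⁻¹ * w)⁻¹ = (c' * c')⁻¹ * ((v * w⁻¹) * (c' * c')) := by
            have hP : ∀ P : Perm Q, P⁻¹ * v * (P⁻¹ * w)⁻¹ = P⁻¹ * ((v * w⁻¹) * P) := by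
              intro P
              rw [mul_inv_rev, inv_inv]
              simp only [mul_assoc]
            exact hP _
        _ = (c' * c')⁻¹ * ((c' * c') * (v * w⁻¹)) := by
            rw [(cv'.mul_right cw'.inv_right).eq]
        _ = v * w⁻¹ := by rw [inv_mul_cancel_left]
    calc (v * w⁻¹) * J = (J * J) * (v * w⁻¹) * J := by rw [hJJ, one_mul]
      _ = J * (J * (v * w⁻¹) * J) := by group
      _ = J * (v * w⁻¹) := by rw [h1]
  have hde : (v * w⁻¹) e = e := h.centJ hdG hdJ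
  have cd : Commute (v * w⁻¹) (c' * c') := (cv'.mul_right cw'.inv_right).symm
  have hds : (v * w⁻¹) (c' e) = c' e := by
    apply (h.D_cent hdG (c' e)).1
    have h1 : D L J (c' e) = (c' * c') * J := by
      rw [← h.D_conj (o.c'G h) e, h.D_e]
      calc c' * J * c'⁻¹ = c' * (J * c'⁻¹) := by group
        _ = c' * (c' * J) := by rw [o.Jc'i h]
        _ = c' * c' * J := by group
    rw [h1]
    calc (v * w⁻¹) * (c' * c' * J) = ((v * w⁻¹) * (c' * c')) * J := by group
      _ = (c' * c') * ((v * w⁻¹) * J) := by rw [cd.eq]; group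
      _ = (c' * c') * J * (v * w⁻¹) := by rw [hdJ]; group
  have cdw : Commute (v * w⁻¹) w := by
    have h1 := h.comR hdG hde hds
    rw [o.Rs h, ← hw] at h1
    exact h1
  refine ⟨⟨hdG, hde⟩, hds, ?_, cdw, cd⟩
  have h1 : v = (v * w⁻¹) * w := by group
  have c1 : Commute v w := by
    rw [h1]; exact cdw.mul_left (Commute.refl w)
  exact pow_comm_one c1.inv_right hvn (by rw [inv_pow, hwn, inv_one])

end OC

end ALoop
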