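import Pool.Agent.H73.FT.S1

/-!
Steps (0)-(4) in one statement.
-/

set_option autoImplicit false

namespace ALoop

open Equiv Pool.Agent.H73.FT

variable {Q : Type*} {G : Subgroup (Perm Q)} {L : Q → Perm Q} {J : Perm Q} {e : Q}

theorem AL.s1 (h : AL G L J e) {x : Q} (hJx : J x = x) {c : Perm Q} (hc : c ∈ Inn G e) {n : ℕ}
    (hn : Odd n) (hcn : c ^ n = 1) (hzc : D L J x * c * D L J x = c⁻¹) :
    L (((L x)⁻¹ * c * L x) e) = (L x)⁻¹ * c * L x * c⁻¹ ∧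
    J * L (J (((L x)⁻¹ * c * L x) e)) * J = (L x)⁻¹ * c * L x * c ∧
    ∀ q, ∃ d ∈ Inn G e, d (((L x)⁻¹ * c * L x) e) = ((L x)⁻¹ * c * L x) e ∧ d ^ n = 1 ∧
      (L q)⁻¹ * ((L x)⁻¹ * c * L x * c) * L q = d * ((L x)⁻¹ * c * L x * c) ∧
      Commute d ((L x)⁻¹ * c * L x * c) ∧
      Commute d (((L x)⁻¹ * c * L x) * ((L x)⁻¹ * c * L x)) := by
  have o : OC G L J e x c ((L x)⁻¹ * c * L x) n := ⟨hJx, hc, hn, hcn, hzc, rfl⟩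
  refine ⟨o.Ls h, o.Rs h, fun q => ?_⟩
  obtain ⟨h1, h2, h3, h4, h5⟩ := o.dq h q
  exact ⟨_, h1, h2, h3, by group, h4, h5⟩

end ALoop
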